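import Pool.Agent.H611R3.AltNeg

/-!
# An analogue of the polynomial hierarchy for circuits with few NOT gates is strict

`AltMono e d G s F` says that the predicate `F` on bit strings can be written with `d` alternating
blocks of quantifiers over `G` bits each (the first block is existential if `e = true`, universal
if `e = false`) in front of functions `f z` which, for all values `z` of the quantified bits,
have monotone circuits with at most `s` AND and OR gates. The dependence on the quantified bits is
arbitrary. `AltNeg e d G s K F` says the same, but with functions `f z` which are computed by at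
most `s` AND and OR gates from constants, the input bits `x` and the wires of one of finitely many
circuits `C i` which read only `x` and contain few non-monotone gates (arbitrary gates, of
arbitrary fan-in, for instance NOT gates): the sum over all `i` of `∏ (a + 1) - 1`, the product
ranging over these gates of `C i`, `a` being the fan-in, is less than `K`. For instance,
`K = 2 ^ t' * (2 ^ t - 1) + 1` if there are `t` NOT gates, which may be fed by gates that depend
on `x` and on `t'` of the quantified bits, if all other gates are monotone in `x`.
`BPAltNeg e d G s K F` says that the same holds with an additional probabilistic quantifier in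
front: arbitrarily many random bits, error one third.

The theorem: for every `d ≥ 1` an explicit monotone predicate `BigTower e M d m v k`, which is of
the form

  `Q₁ (j, i₁) Q₂ i₂ ... Q_d i_d` : the graph number `(j, i₁, ..., i_d)` has a clique with `k`
  vertices

(or the dual form, if `Q_d` is `∀`) with `j` ranging over `M` values and the `i_l` ranging over
`m` values, is in `AltMono e d` with `log M + log m + v + 2` bits in each block and `k ^ 2` gates,
but not in `AltNeg (!e) d`, and not even in `BPAltNeg (!e) d`, with `K ≤ M`, up to `m / 21 - 3`
bits in each block and fewer than `2 ^ (√k - 1)` gates. Here `v = 200 k ^ 4`.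

So at every level the two classes are incomparable and the hierarchy is strict, if the number `G`
of bits of a block is between a polylogarithmic function and a small power of the number `N` of
input bits, even with `t + t' ≤ (1 - ε) log N` (choose `M = N ^ (1 - ε)`); and for `G` polylogarithmic
even with `t + t' ≤ log N - O(d log log N)`. With one NOT gate and `t' = ⌈log (N + 1)⌉`, or with
`⌈log (N + 1)⌉` NOT gates depending only on `x`, such circuits can simulate all circuits (the
number of ones of `x` is guessed), so that `AltNeg e d` contains `Σ_d^P` or `Π_d^P`, respectively.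
-/

namespace Pool.Agent.Results.MP_28250c_lc.AlternatingNegations

open Pool.Agent.H611R2 Pool.Agent.H611R3

theorem result :
    (∀ {ι : Type} (e : Bool) (d G s K : ℕ) (F : (ι → Bool) → Prop), AltNeg e d G s K F →
      AltNeg e (d + 1) G s K F ∧ AltNeg (!e) (d + 1) G s K F) ∧
    ∀ (e : Bool) (d r m M : ℕ), 1 ≤ d → 2 ≤ r → 1 ≤ m → 1 ≤ M →
      (∀ G, Nat.size M + Nat.size m + 200 * r ^ 8 ≤ G →
        AltMono e d G (r ^ 4) (BigTower e M d m (200 * r ^ 8) (r ^ 2))) ∧
      ∀ G s K, 21 * (G + 3) ≤ m → 2 * s < 2 ^ r → K ≤ M →
        ¬ AltNeg (!e) d G s K (BigTower e M d m (200 * r ^ 8) (r ^ 2)) ∧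
        ¬ BPAltNeg (!e) d G s K (BigTower e M d m (200 * r ^ 8) (r ^ 2)) := by
  refine ⟨fun e d G s K F h => altNeg_succ h, fun e d r m M hd hr hm hM => ?_⟩
  constructor
  · intro G hG
    have h := upper_big (e := e) (v := 200 * r ^ 8) (k := r ^ 2) hd hm hM (G := G) (by omega)
    have h2 : (r ^ 2) ^ 2 = r ^ 4 := by ring
    rw [h2] at h
    exact h
  · intro G s K hG hs hK
    have hc : 2 ≤ r ^ 2 := by nlinarith
    have hcv : r ^ 2 ≤ 200 * r ^ 8 := by
      calc r ^ 2 ≤ r ^ 8 := Nat.pow_le_pow_right (by omega) (by omega)
        _ ≤ 200 * r ^ 8 := by omega
    have key : ¬ BPAltNeg (!e) d G s K (BigTower e M d m (200 * r ^ 8) (r ^ 2)) := fun h =>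
      bp_lower hd hr hG hs e (bp_transfer_tower hm hc hcv h hK)
    exact ⟨fun h => key (altNeg_bp h), key⟩

end Pool.Agent.Results.MP_28250c_lc.AlternatingNegations
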