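import Mathlib
import Pool.Agent.H553R2.GCor

namespace H553R2

open Equiv

/-- The polynomial hierarchy for relabelling-invariant computations is strict, even when counting
gates are free: who wins a game of `r` moves on a directed graph is decided by small invariant
AND/OR circuits (it is a question with `r` alternating quantifiers), but not by invariant circuits
of depth `r - 2` with arbitrary counting gates, unless they are huge. -/
theorem _root_.Pool.Agent.Results.MP_28250c_lc.CountingLevels.result :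
    -- (1) small AND/OR circuits
    (∀ (n r : ℕ) (M : Type) (_ : Fintype M) (s : M),
      ∃ (Q : Type) (_ : Fintype Q) (_ : MulAction (Perm (Fin n)) Q) (C : GraphCircuit n M Bool Q),
        Fintype.card Q ≤ 2 * (r + 1) * (n + Fintype.card M) ^ 2 ∧ C.level C.out ≤ 2 * r ∧
        C.IsAndOr ∧ ∀ E, C.val E C.out ↔ Wins E r (Sum.inr s)) ∧
    -- (2) no circuits of depth `r - 2` and size `2 ^ m ^ c` with arbitrary counting gates
    (∀ r c : ℕ, ∃ m0 : ℕ, ∀ m, m0 ≤ m → ∀ (M Λ Q : Type) (_ : Fintype Q)
      (_ : MulAction (Perm (Fin (2 ^ m))) Q) (C : GraphCircuit (2 ^ m) M Λ Q) (s : M),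
      C.level C.out + 2 ≤ r → Fintype.card Q ≤ 2 ^ m ^ c →
      ¬ ∀ E, C.val E C.out ↔ Wins E r (Sum.inr s)) ∧
    -- (3) the quantitative form
    (∀ (n a r : ℕ) (M Λ Q : Type) (_ : Fintype Q) (_ : MulAction (Perm (Fin n)) Q)
      (C : GraphCircuit n M Λ Q) (s : M), 1 ≤ a → 2 ≤ r →
      (10 * r * (2 * a + 1)) ^ (6 * (r - 1)) ≤ n → C.level C.out + 2 ≤ r →
      (∀ E, C.val E C.out ↔ Wins E r (Sum.inr s)) → n ^ a < Fintype.card Q) := by
  refine ⟨?_, game_asymptotic, ?_⟩
  · intro n r M _ s
    exact game_upper n r M s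
  · intro n a r M Λ Q _ _ C s ha hr hn hd hC
    exact game_lower C s ha hr hn hd hC

end H553R2
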