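import Pool.Agent.H599R2.PH.Fin

/-!
# The polynomial hierarchy for subquadratic De Morgan formulas is strict at every level
-/

open Filter in
theorem Pool.Agent.Results.MP_28250c_lc.FormulaHierarchy.result (m s : ℕ → ℕ)
    (hm : Tendsto m atTop atTop)
    (hs : ∀ K : ℕ, ∀ᶠ n in atTop, m n ^ K ≤ s n)
    (hn : ∀ K : ℕ, ∀ᶠ n in atTop, s n * m n ^ K ≤ n ^ 2) (k : ℕ) :
    H599.PH.Level m s k ⊂ H599.PH.Level m s (k + 1) :=
  H599.PH.hierarchy hm hs hn k
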