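import Pool.Agent.H591R3.PHG.Cover
import Pool.Agent.H620R2.Gauge.NonNull
import Pool.Agent.H620R2.Gauge.U1
import Pool.Agent.H620R2.GaugeS.Low

/-!
# How many oracles make the polynomial hierarchy collapse?

For every gauge `f` the following are equivalent: for every `ε > 0` there are infinitely many `N`
with `f N ≤ 2 ^ ((log N) ^ ε)`; the oracles with `Σ_{k+1} = Σ_k` are a null set for `f` (for any
fixed `k`); the oracles for which the polynomial hierarchy collapses are a null set for `f`; those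
with `Σ_{k+1} ⊆ Σ_k / poly` for some `k` are a null set for `f`; the oracles for which the
hierarchy collapses exactly to the first level are a null set for `f`.
-/

namespace Pool.Agent.Results.MP_28250c_lc.GaugeThreshold

open Pool.Agent.NPC Pool.Agent.H620R2.Gauge

theorem result (f : ℕ → ℝ) :
    (∀ O : Set Oracle,
      (∀ A : Oracle, (∀ L, IsPSPACE A L → Reduces L {x | A x = true}) → A ∈ O) →
      (∀ A ∈ O, ∃ k, ∀ L, IsSigma A (k + 1) L → WithAdvice (IsSigma A k) L) →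
      (Null f O ↔
        ∀ ε : ℝ, 0 < ε → ∃ᶠ N : ℕ in Filter.atTop, f N ≤ 2 ^ (Real.logb 2 N) ^ ε)) ∧
    (Null f {A : Oracle | ∃ k, ∀ L, IsSigma A (k + 1) L → IsSigma A k L} ↔
      ∀ ε : ℝ, 0 < ε → ∃ᶠ N : ℕ in Filter.atTop, f N ≤ 2 ^ (Real.logb 2 N) ^ ε) ∧
    (∀ k : ℕ, (Null f {A : Oracle | ∀ L, IsSigma A (k + 1) L → IsSigma A k L} ↔
      ∀ ε : ℝ, 0 < ε → ∃ᶠ N : ℕ in Filter.atTop, f N ≤ 2 ^ (Real.logb 2 N) ^ ε)) ∧
    (Null f {A : Oracle | (∃ L, IsSigma A 1 L ∧ ¬ IsSigma A 0 L) ∧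
        ∀ k L, IsSigma A k L → IsSigma A 1 L} ↔
      ∀ ε : ℝ, 0 < ε → ∃ᶠ N : ℕ in Filter.atTop, f N ≤ 2 ^ (Real.logb 2 N) ^ ε) := by
  -- the null side
  have hnull : ∀ O : Set Oracle,
      (∀ A ∈ O, ∃ k, ∀ L, IsSigma A (k + 1) L → WithAdvice (IsSigma A k) L) →
      (∀ ε : ℝ, 0 < ε → ∃ᶠ N : ℕ in Filter.atTop, f N ≤ 2 ^ (Real.logb 2 N) ^ ε) →
      Null f O := by
    intro O h2 hf
    refine Pool.Agent.H591R3.PHG.null_of_frequently2 f hf O fun A hA => ?_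
    obtain ⟨k, hk⟩ := h2 A hA
    exact ⟨k, hk _ (Pool.Agent.H591R3.PHG.lang_sig A k)⟩
  have key : ∀ O : Set Oracle,
      (∀ A : Oracle, (∀ L, IsPSPACE A L → Reduces L {x | A x = true}) → A ∈ O) →
      (∀ A ∈ O, ∃ k, ∀ L, IsSigma A (k + 1) L → WithAdvice (IsSigma A k) L) →
      (Null f O ↔
        ∀ ε : ℝ, 0 < ε → ∃ᶠ N : ℕ in Filter.atTop, f N ≤ 2 ^ (Real.logb 2 N) ^ ε) := by
    intro O h1 h2
    constructor
    · intro hn ε hε
      by_contra hcon
      rw [Filter.not_frequently] at hcon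
      exact not_null f ε hε (hcon.mono fun N h => not_le.1 h) O h1 hn
    · exact hnull O h2
  have hadv : ∀ (A : Oracle) (k : ℕ), (∀ L, IsSigma A (k + 1) L → IsSigma A k L) →
      ∃ k, ∀ L, IsSigma A (k + 1) L → WithAdvice (IsSigma A k) L := fun A k hk =>
    ⟨k, fun L hL => Pool.Agent.H591R3.PHG.IsSig.isSigPoly (hk L hL)⟩
  have hred : ∀ (A : Oracle), (∀ L, IsPSPACE A L → Reduces L {x | A x = true}) →
      ∀ (k : ℕ) (L : Set (List Bool)), IsSigma A (k + 1) L → IsSigma A k L := fun A hA k L hL =>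
    Pool.Agent.H591R3.PHG.IsSig.of_isP (isP_of_reduces (hA L hL.isPSPACE)) k
  refine ⟨key, key _ ?_ ?_, fun k => key _ ?_ ?_, ?_, ?_⟩
  · intro A hA
    exact ⟨0, hred A hA 0⟩
  · rintro A ⟨k, hk⟩
    exact hadv A k hk
  · intro A hA
    exact hred A hA k
  · intro A hA
    exact hadv A k hA
  · intro hn
    by_contra hcon
    refine not_nullT hcon _ ?_ hn
    rintro A h1 ⟨L, h2, h3⟩
    refine ⟨⟨L, isSigma_one.2 h2.isNP, fun h => h3 (isSigma_zero.1 h)⟩, fun k L hL => ?_⟩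
    exact isSigma_one.2 (h1 L (Or.inr hL.isPSPACE)).isNP
  · refine hnull _ ?_
    rintro A ⟨_, hA⟩
    exact hadv A 1 (hA 2)

end Pool.Agent.Results.MP_28250c_lc.GaugeThreshold
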